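import Pool.Agent.H354R2.Pratt

/-!
Primary pseudoperfect numbers with ten prime factors (helper3, helper65).
-/

set_option autoImplicit false
set_option linter.all false

namespace Pool.Agent.H3PP

open Pool.Agent.H354R2

theorem p2 : Nat.Prime 2 := by norm_num

theorem p3 : Nat.Prime 3 := by norm_num

theorem p11 : Nat.Prime 11 := by norm_num

theorem p17 : Nat.Prime 17 := by norm_num

theorem p101 : Nat.Prime 101 := by norm_num

theorem p157 : Nat.Prime 157 := by norm_num

theorem p1979 : Nat.Prime 1979 := by norm_num

theorem p10093 : Nat.Prime 10093 := by norm_num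

theorem p16879 : Nat.Prime 16879 := by norm_num

theorem p5998279018951962403 : Nat.Prime 5998279018951962403 := by
  refine pratt 5998279018951962403 3 63 [2, 3, 11, 17, 101, 157, 1979, 10093, 16879] ?_ (by decide +kernel)
  intro q hq
  simp only [List.mem_cons, List.not_mem_nil, or_false] at hq
  rcases hq with rfl | rfl | rfl | rfl | rfl | rfl | rfl | rfl | rfl
  · exact p2
  · exact p3
  · exact p11
  · exact p17
  · exact p101
  · exact p157
  · exact p1979
  · exact p10093
  · exact p16879

theorem p7 : Nat.Prime 7 := by norm_num

theorem p61 : Nat.Prime 61 := by norm_num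

theorem p167 : Nat.Prime 167 := by norm_num

theorem p733 : Nat.Prime 733 := by norm_num

theorem p17137 : Nat.Prime 17137 := by norm_num

theorem p183571 : Nat.Prime 183571 := by norm_num

theorem p29 : Nat.Prime 29 := by norm_num

theorem p149 : Nat.Prime 149 := by norm_num

theorem p499 : Nat.Prime 499 := by norm_num

theorem p769 : Nat.Prime 769 := by norm_num

theorem p834998657 : Nat.Prime 834998657 := by
  refine pratt 834998657 3 30 [2, 2, 2, 2, 2, 2, 2, 17, 499, 769] ?_ (by decide +kernel)
  intro q hq
  simp only [List.mem_cons, List.not_mem_nil, or_false] at hq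
  rcases hq with rfl | rfl | rfl | rfl | rfl | rfl | rfl | rfl | rfl | rfl
  · exact p2
  · exact p2
  · exact p2
  · exact p2
  · exact p2
  · exact p2
  · exact p2
  · exact p17
  · exact p499
  · exact p769

theorem p746488799359 : Nat.Prime 746488799359 := by
  refine pratt 746488799359 7 40 [2, 3, 149, 834998657] ?_ (by decide +kernel)
  intro q hq
  simp only [List.mem_cons, List.not_mem_nil, or_false] at hq
  rcases hq with rfl | rfl | rfl | rfl
  · exact p2
  · exact p3
  · exact p149
  · exact p834998657

theorem p43296350362823 : Nat.Prime 43296350362823 := by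
  refine pratt 43296350362823 5 46 [2, 29, 746488799359] ?_ (by decide +kernel)
  intro q hq
  simp only [List.mem_cons, List.not_mem_nil, or_false] at hq
  rcases hq with rfl | rfl | rfl
  · exact p2
  · exact p29
  · exact p746488799359

theorem p15887 : Nat.Prime 15887 := by norm_num

theorem p5 : Nat.Prime 5 := by norm_num

theorem p503 : Nat.Prime 503 := by norm_num

theorem p41 : Nat.Prime 41 := by norm_num

theorem p5059 : Nat.Prime 5059 := by norm_num

theorem p23911 : Nat.Prime 23911 := by norm_num

theorem p499493 : Nat.Prime 499493 := by norm_num

theorem p39636533431608593 : Nat.Prime 39636533431608593 := by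
  refine pratt 39636533431608593 3 56 [2, 2, 2, 2, 41, 5059, 23911, 499493] ?_ (by decide +kernel)
  intro q hq
  simp only [List.mem_cons, List.not_mem_nil, or_false] at hq
  rcases hq with rfl | rfl | rfl | rfl | rfl | rfl | rfl | rfl
  · exact p2
  · exact p2
  · exact p2
  · exact p2
  · exact p41
  · exact p5059
  · exact p23911
  · exact p499493

theorem p16747228105523262714361 : Nat.Prime 16747228105523262714361 := by
  refine pratt 16747228105523262714361 34 74 [2, 2, 2, 3, 5, 7, 503, 39636533431608593] ?_ (by decide +kernel)
  intro q hq
  simp only [List.mem_cons, List.not_mem_nil, or_false] at hq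
  rcases hq with rfl | rfl | rfl | rfl | rfl | rfl | rfl | rfl
  · exact p2
  · exact p2
  · exact p2
  · exact p3
  · exact p5
  · exact p7
  · exact p503
  · exact p39636533431608593

theorem p54276895434139407247582854229 : Nat.Prime 54276895434139407247582854229 := by
  refine pratt 54276895434139407247582854229 2 96 [2, 2, 3, 17, 15887, 16747228105523262714361] ?_ (by decide +kernel)
  intro q hq
  simp only [List.mem_cons, List.not_mem_nil, or_false] at hq
  rcases hq with rfl | rfl | rfl | rfl | rfl | rfl
  · exact p2
  · exact p2
  · exact p3
  · exact p17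
  · exact p15887
  · exact p16747228105523262714361

/-- first -/
theorem first : Nat.primeFactors 35979351189199316534587473905773572006 = ({2, 3, 11, 17, 101, 157, 1979, 10093, 16879, 5998279018951962403} : Finset ℕ) := by
  have h := Nat.primeFactors_prod (s := ({2, 3, 11, 17, 101, 157, 1979, 10093, 16879, 5998279018951962403} : Finset ℕ)) (by
    intro p hp
    simp only [Finset.mem_insert, Finset.mem_singleton] at hp
    rcases hp with rfl | rfl | rfl | rfl | rfl | rfl | rfl | rfl | rfl | rfl
    · exact p2
    · exact p3
    · exact p11
    · exact p17
    · exact p101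
    · exact p157
    · exact p1979
    · exact p10093
    · exact p16879
    · exact p5998279018951962403)
  have h2 : (∏ p ∈ ({2, 3, 11, 17, 101, 157, 1979, 10093, 16879, 5998279018951962403} : Finset ℕ), p) = 35979351189199316534587473905773572006 := by decide +kernel
  rw [h2] at h
  exact h

theorem first_ok : (Nat.primeFactors 35979351189199316534587473905773572006).card = 10 ∧
    (∑ p ∈ Nat.primeFactors 35979351189199316534587473905773572006, (1 : ℚ) / (p : ℚ)) + 1 / ((35979351189199316534587473905773572006 : ℕ) : ℚ) = 1 := by
  rw [first]
  refine ⟨by decide +kernel, ?_⟩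
  rw [Finset.sum_insert (by decide +kernel)]
  rw [Finset.sum_insert (by decide +kernel)]
  rw [Finset.sum_insert (by decide +kernel)]
  rw [Finset.sum_insert (by decide +kernel)]
  rw [Finset.sum_insert (by decide +kernel)]
  rw [Finset.sum_insert (by decide +kernel)]
  rw [Finset.sum_insert (by decide +kernel)]
  rw [Finset.sum_insert (by decide +kernel)]
  rw [Finset.sum_insert (by decide +kernel)]
  rw [Finset.sum_singleton]
  norm_num

/-- second -/
theorem second : Nat.primeFactors 2318487344461212044808266715505249967391337588451045543300838 = ({2, 3, 7, 61, 167, 733, 17137, 183571, 43296350362823, 54276895434139407247582854229} : Finset ℕ) := by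
  have h := Nat.primeFactors_prod (s := ({2, 3, 7, 61, 167, 733, 17137, 183571, 43296350362823, 54276895434139407247582854229} : Finset ℕ)) (by
    intro p hp
    simp only [Finset.mem_insert, Finset.mem_singleton] at hp
    rcases hp with rfl | rfl | rfl | rfl | rfl | rfl | rfl | rfl | rfl | rfl
    · exact p2
    · exact p3
    · exact p7
    · exact p61
    · exact p167
    · exact p733
    · exact p17137
    · exact p183571
    · exact p43296350362823
    · exact p54276895434139407247582854229)
  have h2 : (∏ p ∈ ({2, 3, 7, 61, 167, 733, 17137, 183571, 43296350362823, 54276895434139407247582854229} : Finset ℕ), p) = 2318487344461212044808266715505249967391337588451045543300838 := by decide +kernel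
  rw [h2] at h
  exact h

theorem second_ok : (Nat.primeFactors 2318487344461212044808266715505249967391337588451045543300838).card = 10 ∧
    (∑ p ∈ Nat.primeFactors 2318487344461212044808266715505249967391337588451045543300838, (1 : ℚ) / (p : ℚ)) + 1 / ((2318487344461212044808266715505249967391337588451045543300838 : ℕ) : ℚ) = 1 := by
  rw [second]
  refine ⟨by decide +kernel, ?_⟩
  rw [Finset.sum_insert (by decide +kernel)]
  rw [Finset.sum_insert (by decide +kernel)]
  rw [Finset.sum_insert (by decide +kernel)]
  rw [Finset.sum_insert (by decide +kernel)]
  rw [Finset.sum_insert (by decide +kernel)]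
  rw [Finset.sum_insert (by decide +kernel)]
  rw [Finset.sum_insert (by decide +kernel)]
  rw [Finset.sum_insert (by decide +kernel)]
  rw [Finset.sum_insert (by decide +kernel)]
  rw [Finset.sum_singleton]
  norm_num

end Pool.Agent.H3PP
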